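import Mathlib

set_option autoImplicit false

namespace Pool.Agent.Results.MP_039f74_co.Counter

/-- The rank: least size of a generating set. -/
noncomputable def rk (G : Type) [AddCommGroup G] : ℕ :=
  sInf {k | ∃ T : Finset G, T.card = k ∧ AddSubgroup.closure (T : Set G) = ⊤}

/-- The edge boundary `#{(a, s) ∈ A × S : a + s ∉ A}`. -/
def bd {G : Type} [AddCommGroup G] [DecidableEq G] (S A : Finset G) : ℕ :=
  ((A ×ˢ S).filter fun p => p.1 + p.2 ∉ A).card

abbrev K : Type := ZMod 2 × ZMod 2 × ZMod 4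

def S : Finset K := {(1, 0, 1), (0, 1, 1), (0, 0, 1)}

lemma gen : AddSubgroup.closure (S : Set K) = ⊤ := by
  rw [eq_top_iff]
  intro x _
  have h : ∀ x : K, ∃ a b c : Fin 4, x = a.1 • ((1, 0, 1) : K) + b.1 • ((0, 1, 1) : K) +
      c.1 • ((0, 0, 1) : K) := by decide +kernel
  obtain ⟨a, b, c, rfl⟩ := h x
  refine add_mem (add_mem ?_ ?_) ?_ <;>
    exact nsmul_mem (AddSubgroup.subset_closure (by simp [S])) _

def phi (a b : ZMod 2) (c : ZMod 4) (x : K) : ZMod 4 :=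
  2 * ((a * x.1).val + (b * x.2.1).val + c * x.2.2)

lemma phi_add : ∀ a b c x y, phi a b c (x + y) = phi a b c x + phi a b c y := by decide +kernel

lemma phi_ex : ∀ x y : K, ∃ a b c, phi a b c x = 0 ∧ phi a b c y = 0 ∧ ∃ z, phi a b c z ≠ 0 := by
  decide +kernel

lemma rk_ge : 3 ≤ rk K := by
  refine le_csInf ⟨_, S, rfl, gen⟩ ?_
  rintro k ⟨T, rfl, hT⟩
  by_contra h
  obtain ⟨x, y, hxy⟩ : ∃ x y : K, ∀ t ∈ T, t = x ∨ t = y := by
    have : T.card = 0 ∨ T.card = 1 ∨ T.card = 2 := by omega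
    rcases this with e | e | e
    · exact ⟨0, 0, by simp [Finset.card_eq_zero.1 e]⟩
    · obtain ⟨a, rfl⟩ := Finset.card_eq_one.1 e
      exact ⟨a, a, by simp⟩
    · obtain ⟨a, b, -, rfl⟩ := Finset.card_eq_two.1 e
      exact ⟨a, b, by simp⟩
  obtain ⟨a, b, c, h1, h2, z, hz⟩ := phi_ex x y
  have : AddSubgroup.closure (T : Set K) ≤ (AddMonoidHom.mk' (phi a b c) (phi_add a b c)).ker := by
    rw [AddSubgroup.closure_le]
    intro t ht
    rcases hxy t ht with rfl | rfl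
    exacts [h1, h2]
  exact hz (this (hT ▸ AddSubgroup.mem_top z))

lemma ord : ∀ s ∈ S, addOrderOf s = 4 := by
  intro s hs
  refine (addOrderOf_eq_iff (by norm_num)).2 ?_
  revert s
  decide +kernel

theorem result : ¬ ∀ (G : Type) [AddCommGroup G] [Fintype G] [DecidableEq G] (S A : Finset G)
    (γ : ℝ) (d : ℕ), AddSubgroup.closure (S : Set G) = ⊤ → 0 < γ → γ ≤ 1 → A.Nonempty →
    IsLeast (addOrderOf '' (S : Set G)) d → (bd S A : ℝ) ≤ (1 - γ) * rk G * A.card →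
    (4 : ℝ) ^ ((1 - 1 / (d : ℝ)) * γ * rk G) ≤ A.card := by
  intro h
  have := h K S Finset.univ 1 4 gen one_pos le_rfl Finset.univ_nonempty
    ⟨⟨(0, 0, 1), by simp [S], ord _ (by simp [S])⟩, by
      rintro _ ⟨s, hs, rfl⟩
      exact (ord s hs).ge⟩ (by simp [bd])
  have c : (Finset.univ : Finset K).card = 16 := by decide +kernel
  have r : (3 : ℝ) ≤ rk K := by exact_mod_cast rk_ge
  rw [c] at this
  have l : (4 : ℝ) ^ ((2 : ℕ) : ℝ) < (4 : ℝ) ^ ((1 - 1 / ((4 : ℕ) : ℝ)) * 1 * rk K) :=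
    Real.rpow_lt_rpow_of_exponent_lt (by norm_num) (by push_cast; linarith)
  rw [Real.rpow_natCast] at l
  push_cast at this l
  linarith

end Pool.Agent.Results.MP_039f74_co.Counter
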